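import Mathlib

/-!
Back-and-forth lemmas and a compactness (forth) step along an ultrafilter, for group actions with
finitely many orbits on tuples.
-/

namespace Helper67.Recon

open Filter

/-- Forth construction along lists. -/
theorem exists_forth {α β : Type*} [Countable α] (R : List (α × β) → Prop) (h0 : R [])
    (hf : ∀ l, R l → ∀ a, ∃ b, R ((a, b) :: l))
    (hsub : ∀ l l', l' ⊆ l → R l → R l') :
    ∃ f : α → β, ∀ s : List α, R (s.map fun a => (a, f a)) := by
  classical
  rcases isEmpty_or_nonempty α with hα | hα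
  · refine ⟨fun a => (hα.false a).elim, fun s => ?_⟩
    cases s with
    | nil => simpa using h0
    | cons a s => exact (hα.false a).elim
  obtain ⟨e, he⟩ := exists_surjective_nat α
  have hβ : Nonempty β := ⟨(hf [] h0 hα.some).choose⟩
  choose! b hb using hf
  let L : ℕ → List (α × β) := fun n => Nat.rec [] (fun n l => (e n, b l (e n)) :: l) n
  have hLs : ∀ n, L (n + 1) = (e n, b (L n) (e n)) :: L n := fun n => rfl
  have hL : ∀ n, R (L n) := by
    intro n
    induction n with
    | zero => exact h0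
    | succ n ih => rw [hLs]; exact hb _ ih _
  have hmono : ∀ n m, n ≤ m → L n ⊆ L m := by
    intro n m hnm
    induction hnm with
    | refl => exact fun _ h => h
    | step _ ih => rw [hLs]; exact fun x hx => List.mem_cons_of_mem _ (ih hx)
  let s : α → ℕ := fun a => (he a).choose
  have hs : ∀ a, e (s a) = a := fun a => (he a).choose_spec
  refine ⟨fun a => b (L (s a)) a, fun t => ?_⟩
  have hmem : ∀ a, (a, b (L (s a)) a) ∈ L (s a + 1) := by
    intro a
    rw [hLs, hs]
    exact List.mem_cons_self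
  have : ∃ n, ∀ a ∈ t, s a + 1 ≤ n := by
    induction t with
    | nil => exact ⟨0, by simp⟩
    | cons a t ih =>
      obtain ⟨n, hn⟩ := ih
      refine ⟨max n (s a + 1), fun c hc => ?_⟩
      rcases List.mem_cons.1 hc with rfl | hc
      · exact le_max_right _ _
      · exact (hn c hc).trans (le_max_left _ _)
  obtain ⟨n, hn⟩ := this
  refine hsub (L n) _ ?_ (hL n)
  intro p hp
  obtain ⟨a, ha, rfl⟩ := List.mem_map.1 hp
  exact hmono _ _ (hn a ha) (hmem a)

/-- Back-and-forth construction along lists. -/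
theorem exists_backForth {α β : Type*} [Countable α] [Countable β]
    (R : List (α × β) → Prop) (h0 : R [])
    (hf : ∀ l, R l → ∀ a, ∃ b, R ((a, b) :: l))
    (hb : ∀ l, R l → ∀ b, ∃ a, R ((a, b) :: l))
    (hsub : ∀ l l', l' ⊆ l → R l → R l') :
    ∃ (f : α → β) (g : β → α), ∀ (s : List α) (t : List β),
      R ((s.map fun a => (a, f a)) ++ (t.map fun b => (g b, b))) := by
  classical
  -- a forth construction for the sum type, deciding the missing coordinate of a pair
  let R' : List ((α ⊕ β) × (α × β)) → Prop := fun l =>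
    R (l.map Prod.snd) ∧ ∀ p ∈ l, Sum.elim (fun a => p.2.1 = a) (fun b => p.2.2 = b) p.1
  obtain ⟨F, hF⟩ := exists_forth R' (by simpa [R'] using h0)
    (by
      rintro l ⟨hl, hl'⟩ (a | b)
      · obtain ⟨b, hb⟩ := hf _ hl a
        refine ⟨(a, b), ?_, ?_⟩
        · simpa [R'] using hb
        · intro p hp
          rcases List.mem_cons.1 hp with rfl | hp
          · simp
          · exact hl' p hp
      · obtain ⟨a, ha⟩ := hb _ hl b
        refine ⟨(a, b), ?_, ?_⟩
        · simpa [R'] using ha
        · intro p hp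
          rcases List.mem_cons.1 hp with rfl | hp
          · simp
          · exact hl' p hp)
    (by
      rintro l l' hll ⟨hl, hl'⟩
      exact ⟨hsub _ _ (List.map_subset _ hll) hl, fun p hp => hl' p (hll hp)⟩)
  refine ⟨fun a => (F (Sum.inl a)).2, fun b => (F (Sum.inr b)).1, fun s t => ?_⟩
  have key := hF (s.map Sum.inl ++ t.map Sum.inr)
  have h1 : ∀ a, (F (Sum.inl a)).1 = a := by
    intro a
    have := (hF [Sum.inl a]).2 (Sum.inl a, F (Sum.inl a)) (by simp)
    simpa using this
  have h2 : ∀ b, (F (Sum.inr b)).2 = b := by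
    intro b
    have := (hF [Sum.inr b]).2 (Sum.inr b, F (Sum.inr b)) (by simp)
    simpa using this
  refine hsub _ _ ?_ key.1
  intro p hp
  rcases List.mem_append.1 hp with hp | hp
  · obtain ⟨a, ha, rfl⟩ := List.mem_map.1 hp
    refine List.mem_map.2 ⟨(Sum.inl a, F (Sum.inl a)), ?_, ?_⟩
    · exact List.mem_map.2 ⟨Sum.inl a, List.mem_append_left _ (List.mem_map.2 ⟨a, ha, rfl⟩), rfl⟩
    · ext
      · exact h1 a
      · rfl
  · obtain ⟨b, hb, rfl⟩ := List.mem_map.1 hp
    refine List.mem_map.2 ⟨(Sum.inr b, F (Sum.inr b)), ?_, ?_⟩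
    · exact List.mem_map.2 ⟨Sum.inr b, List.mem_append_right _ (List.mem_map.2 ⟨b, hb, rfl⟩), rfl⟩
    · ext
      · rfl
      · exact h2 b

/-- The hyperfilter on `ℕ` as an ultrafilter. -/
noncomputable abbrev UU : Ultrafilter ℕ := hyperfilter ℕ

theorem eventually_UU_ge (N : ℕ) : ∀ᶠ n in (UU : Filter ℕ), N ≤ n :=
  (eventually_ge_atTop N).filter_mono Nat.hyperfilter_le_atTop

/-- The forth step: tuples of sequences have a limit type along the ultrafilter, since there are
finitely many orbits on tuples. -/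
theorem forth_step {G W S : Type*} [Group G] [MulAction G W]
    (olig : ∀ k : ℕ, Finite (MulAction.orbitRel.Quotient G (Fin k → W)))
    (u : ℕ → S → W) (l : List (S × W))
    (hl : ∀ᶠ n in (UU : Filter ℕ), ∃ g : G, ∀ p ∈ l, g • u n p.1 = p.2) (s : S) :
    ∃ w : W, ∀ᶠ n in (UU : Filter ℕ), ∃ g : G, ∀ p ∈ (s, w) :: l, g • u n p.1 = p.2 := by
  classical
  let ss : List S := s :: l.map Prod.fst
  let t : ℕ → (Fin ss.length → W) := fun n i => u n (ss.get i)
  have := olig ss.length
  let q : ℕ → MulAction.orbitRel.Quotient G (Fin ss.length → W) := fun n => Quotient.mk'' (t n)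
  obtain ⟨o, ho⟩ : ∃ o, (UU.map q) = pure o := (UU.map q).eq_pure_of_finite
  have ho' : ∀ᶠ n in (UU : Filter ℕ), q n = o := by
    have : ({o} : Set _) ∈ (UU.map q) := by rw [ho]; exact rfl
    exact this
  obtain ⟨n0, ⟨g0, hg0⟩, hn0⟩ := (hl.and ho').exists
  refine ⟨g0 • u n0 s, ho'.mono fun n hn => ?_⟩
  have hq : q n0 = q n := by rw [hn0, hn]
  have : t n0 ∈ MulAction.orbit G (t n) := by
    have := Quotient.exact' hq
    exact (MulAction.orbitRel_apply).1 this
  obtain ⟨g', hg'⟩ := this
  have hval : ∀ x ∈ ss, g' • u n x = u n0 x := by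
    intro x hx
    obtain ⟨i, hi⟩ := List.get_of_mem hx
    have := congrFun hg' i
    simp only [Pi.smul_apply, t, hi] at this
    exact this
  refine ⟨g0 * g', fun p hp => ?_⟩
  rw [mul_smul]
  rcases List.mem_cons.1 hp with rfl | hp
  · rw [hval _ (List.mem_cons_self)]
  · rw [hval _ (List.mem_cons_of_mem _ (List.mem_map.2 ⟨p, hp, rfl⟩))]
    exact hg0 p hp

/-- Limit of a sequence of maps, up to the group, along the ultrafilter. -/
theorem exists_limit {G W D : Type*} [Group G] [MulAction G W] [Countable D]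
    (olig : ∀ k : ℕ, Finite (MulAction.orbitRel.Quotient G (Fin k → W)))
    (u : ℕ → D → W) :
    ∃ v : D → W, ∀ s : List D, ∀ᶠ n in (UU : Filter ℕ), ∃ g : G, ∀ d ∈ s, g • u n d = v d := by
  obtain ⟨v, hv⟩ := exists_forth
    (fun l : List (D × W) => ∀ᶠ n in (UU : Filter ℕ), ∃ g : G, ∀ p ∈ l, g • u n p.1 = p.2)
    (by simp) (fun l hl a => forth_step olig u l hl a)
    (fun l l' hll hl => hl.mono fun n ⟨g, hg⟩ => ⟨g, fun p hp => hg p (hll hp)⟩)
  refine ⟨v, fun s => (hv s).mono fun n ⟨g, hg⟩ => ⟨g, fun d hd => ?_⟩⟩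
  exact hg (d, v d) (List.mem_map.2 ⟨d, hd, rfl⟩)

theorem countable_step {S I : Type*} [Countable I] (F : I → List S → S)
    (A : Set S) (hA : A.Countable) :
    (A ∪ Set.range fun p : I × List ↥A => F p.1 (p.2.map Subtype.val)).Countable := by
  have : Countable ↥A := hA.to_subtype
  exact hA.union (Set.countable_range _)

/-- Closing off a countable set under countably many finitary operations. -/
theorem exists_countable_closed {S I : Type*} [Countable I] (F : I → List S → S)
    (S0 : Set S) (h0 : S0.Countable) :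
    ∃ D : Set S, S0 ⊆ D ∧ D.Countable ∧ ∀ i l, (∀ s ∈ l, s ∈ D) → F i l ∈ D := by
  classical
  let step : Set S → Set S := fun A => A ∪ Set.range fun p : I × List ↥A => F p.1 (p.2.map Subtype.val)
  let Dn : ℕ → Set S := fun n => Nat.rec S0 (fun _ A => step A) n
  have hsucc : ∀ n, Dn (n + 1) = step (Dn n) := fun n => rfl
  have hc : ∀ n, (Dn n).Countable := by
    intro n
    induction n with
    | zero => exact h0
    | succ n ih =>
      rw [hsucc]
      exact countable_step F _ ih
  have hm : ∀ n m, n ≤ m → Dn n ⊆ Dn m := by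
    intro n m hnm
    induction hnm with
    | refl => exact fun _ h => h
    | step _ ih => rw [hsucc]; exact fun x hx => Or.inl (ih hx)
  refine ⟨⋃ n, Dn n, Set.subset_iUnion Dn 0, Set.countable_iUnion hc, fun i l hl => ?_⟩
  have : ∃ n, ∀ s ∈ l, s ∈ Dn n := by
    induction l with
    | nil => exact ⟨0, by simp⟩
    | cons a l ih =>
      obtain ⟨n, hn⟩ := ih fun s hs => hl s (List.mem_cons_of_mem _ hs)
      obtain ⟨m, hm'⟩ := Set.mem_iUnion.1 (hl a List.mem_cons_self)
      refine ⟨max n m, fun s hs => ?_⟩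
      rcases List.mem_cons.1 hs with rfl | hs
      · exact hm _ _ (le_max_right _ _) hm'
      · exact hm _ _ (le_max_left _ _) (hn s hs)
  obtain ⟨n, hn⟩ := this
  refine Set.mem_iUnion.2 ⟨n + 1, Or.inr ⟨(i, l.pmap (fun s hs => ⟨s, hs⟩) hn), ?_⟩⟩
  simp [List.map_pmap]

end Helper67.Recon
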