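import Mathlib

/-!
Definitions for the reconstruction problem: pointwise topologies, oligomorphic groups, automorphism
groups and endomorphism monoids, closures of groups in the full transformation monoid, and
reconstruction.
-/

namespace Pool.Agent.Helper67.Recon

open Topology
open scoped FirstOrder

universe u v w

/-- The topology of pointwise convergence on `X → X`, with `X` discrete. -/
@[instance_reducible] def pointwiseTopology (X : Type w) : TopologicalSpace (X → X) :=
  @Pi.topologicalSpace X (fun _ => X) (fun _ => ⊥)

/-- The topology on the symmetric group of `X` as a subspace of `X → X`. -/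
@[instance_reducible] def permTopology (X : Type w) : TopologicalSpace (Equiv.Perm X) :=
  (pointwiseTopology X).induced fun σ x => σ x

/-- The subspace topology on a permutation group. -/
@[instance_reducible] def groupTopology {X : Type w} (G : Subgroup (Equiv.Perm X)) : TopologicalSpace G :=
  (permTopology X).induced fun g => g.1

/-- The subspace topology on a transformation monoid. -/
@[instance_reducible] def monoidTopology {X : Type w} (M : Submonoid (Function.End X)) : TopologicalSpace M :=
  (pointwiseTopology X).induced fun f => f.1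

/-- A permutation group is oligomorphic if it has finitely many orbits on `k`-tuples, for all `k`. -/
def Oligomorphic {X : Type w} (G : Subgroup (Equiv.Perm X)) : Prop :=
  ∀ k : ℕ, Finite (MulAction.orbitRel.Quotient G (Fin k → X))

theorem mem_closure_pointwise {X : Type w} (S : Set (X → X)) (f : X → X) :
    f ∈ @closure _ (pointwiseTopology X) S ↔ ∀ s : List X, ∃ f' ∈ S, ∀ x ∈ s, f' x = f x := by
  classical
  let _ : TopologicalSpace X := ⊥
  have _ : DiscreteTopology X := ⟨rfl⟩
  change f ∈ closure S ↔ _
  rw [mem_closure_iff]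
  constructor
  · intro h s
    obtain ⟨f', hf', hf'S⟩ := h ((s.toFinset : Set X).pi fun x => {f x})
      (isOpen_set_pi s.toFinset.finite_toSet fun _ _ => isOpen_discrete _)
      (fun x _ => rfl)
    exact ⟨f', hf'S, fun x hx => hf' x (by simpa using hx)⟩
  · intro h o ho hfo
    obtain ⟨I, u, hu, hIu⟩ := isOpen_pi_iff.1 ho f hfo
    obtain ⟨f', hf'S, hf'⟩ := h I.toList
    refine ⟨f', hIu fun x hx => ?_, hf'S⟩
    rw [hf' x (by simpa using hx)]
    exact (hu x hx).2

/-- The closure, in the full transformation monoid of `X`, of a permutation group on `X`. -/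
def closureMonoid {X : Type w} (G : Subgroup (Equiv.Perm X)) : Submonoid (Function.End X) where
  carrier := {f | (f : X → X) ∈ closure[pointwiseTopology X] {f | ∃ σ ∈ G, ∀ x, f x = σ x}}
  one_mem' := (mem_closure_pointwise _ _).2 fun _ => ⟨id, ⟨1, G.one_mem, fun _ => rfl⟩, fun _ _ => rfl⟩
  mul_mem' := by
    intro a b ha hb
    replace ha := (mem_closure_pointwise _ _).1 ha
    replace hb := (mem_closure_pointwise _ _).1 hb
    refine (mem_closure_pointwise _ _).2 fun s => ?_
    obtain ⟨b', ⟨τ, hτ, hbτ⟩, hb'⟩ := hb s
    obtain ⟨a', ⟨σ, hσ, haσ⟩, ha'⟩ := ha (s.map b)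
    refine ⟨fun x => σ (τ x), ⟨σ * τ, G.mul_mem hσ hτ, fun x => rfl⟩, fun x hx => ?_⟩
    exact (congrArg σ ((hbτ x).symm.trans (hb' x hx))).trans
      ((haσ _).symm.trans (ha' _ (List.mem_map.2 ⟨x, hx, rfl⟩)))

/-- The automorphism group of a first-order structure. -/
def autGroup (L : FirstOrder.Language.{u, v}) (B : Type w) [L.Structure B] : Subgroup (Equiv.Perm B) where
  carrier := {σ | ∃ φ : B ≃[L] B, ∀ b, φ b = σ b}
  one_mem' := ⟨FirstOrder.Language.Equiv.refl L B, fun _ => rfl⟩
  mul_mem' := by
    rintro σ τ ⟨φ, hφ⟩ ⟨ψ, hψ⟩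
    exact ⟨φ.comp ψ, fun b => by rw [FirstOrder.Language.Equiv.comp_apply, hφ, hψ]; rfl⟩
  inv_mem' := by
    rintro σ ⟨φ, hφ⟩
    refine ⟨φ.symm, fun b => ?_⟩
    apply φ.injective
    rw [FirstOrder.Language.Equiv.apply_symm_apply, hφ]
    exact (σ.apply_symm_apply b).symm

/-- The endomorphism monoid of a first-order structure: all homomorphisms to itself. -/
def endMonoid (L : FirstOrder.Language.{u, v}) (B : Type w) [L.Structure B] : Submonoid (Function.End B) where
  carrier := {f | ∃ φ : B →[L] B, ∀ b, φ b = f b}
  one_mem' := ⟨FirstOrder.Language.Hom.id L B, fun _ => rfl⟩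
  mul_mem' := by
    rintro f g ⟨φ, hφ⟩ ⟨ψ, hψ⟩
    exact ⟨φ.comp ψ, fun b => by rw [FirstOrder.Language.Hom.comp_apply, hφ, hψ]; rfl⟩

/-- Two permutation groups are topologically isomorphic. -/
def GroupTopIso {X : Type u} {Y : Type v} (G : Subgroup (Equiv.Perm X))
    (H : Subgroup (Equiv.Perm Y)) : Prop :=
  ∃ e : G ≃* H, Continuous[groupTopology G, groupTopology H] e ∧
    Continuous[groupTopology H, groupTopology G] e.symm

/-- Two transformation monoids are topologically isomorphic. -/
def MonoidTopIso {X : Type u} {Y : Type v} (M : Submonoid (Function.End X))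
    (N : Submonoid (Function.End Y)) : Prop :=
  ∃ e : M ≃* N, Continuous[monoidTopology M, monoidTopology N] e ∧
    Continuous[monoidTopology N, monoidTopology M] e.symm

/-- A countable structure is `ω`-categorical iff its automorphism group is oligomorphic. -/
def OmegaCategorical (L : FirstOrder.Language.{u, v}) (B : Type w) [L.Structure B] : Prop :=
  Countable B ∧ Oligomorphic (autGroup L B)

/-- Reconstruction for permutation groups on `ℕ`. -/
def GroupReconstruction (G : Subgroup (Equiv.Perm ℕ)) : Prop :=
  ∀ (L : FirstOrder.Language.{u, v}) (B : Type w) [L.Structure B], OmegaCategorical L B →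
    Nonempty (G ≃* autGroup L B) → GroupTopIso G (autGroup L B)

/-- Reconstruction for transformation monoids on `ℕ`. -/
def MonoidReconstruction (M : Submonoid (Function.End ℕ)) : Prop :=
  ∀ (L : FirstOrder.Language.{u, v}) (B : Type w) [L.Structure B], OmegaCategorical L B →
    Nonempty (M ≃* endMonoid L B) → MonoidTopIso M (endMonoid L B)

end Pool.Agent.Helper67.Recon
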