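import Pool.Agent.Helper67.Recon.Defs

/-!
A topological isomorphism between two permutation groups extends to a topological isomorphism
between their closures in the full transformation monoids.
-/

namespace Pool.Agent.Helper67.Recon

open Topology

universe u v w

theorem mem_closureMonoid {X : Type w} (G : Subgroup (Equiv.Perm X)) (f : Function.End X) :
    f ∈ closureMonoid G ↔ ∀ s : List X, ∃ g ∈ G, ∀ x ∈ s, g x = f x := by
  refine (mem_closure_pointwise _ _).trans ⟨fun h s => ?_, fun h s => ?_⟩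
  · obtain ⟨f', ⟨σ, hσ, hf'⟩, hs⟩ := h s
    exact ⟨σ, hσ, fun x hx => by rw [← hf' x, hs x hx]⟩
  · obtain ⟨g, hg, hgs⟩ := h s
    exact ⟨g, ⟨g, hg, fun _ => rfl⟩, hgs⟩

theorem isOpen_pointwise {X : Type w} {U : Set (X → X)} (hU : IsOpen[pointwiseTopology X] U)
    {f : X → X} (hf : f ∈ U) : ∃ s : List X, ∀ f', (∀ x ∈ s, f' x = f x) → f' ∈ U := by
  let _ : TopologicalSpace X := ⊥
  obtain ⟨I, u, hu, hIu⟩ := isOpen_pi_iff.1 hU f hf
  refine ⟨I.toList, fun f' hf' => hIu fun x hx => ?_⟩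
  rw [hf' x (by simpa using hx)]
  exact (hu x hx).2

theorem isOpen_cylinder {X : Type w} (s : List X) (f : X → X) :
    IsOpen[pointwiseTopology X] {f' | ∀ x ∈ s, f' x = f x} := by
  classical
  let _ : TopologicalSpace X := ⊥
  have _ : DiscreteTopology X := ⟨rfl⟩
  change IsOpen {f' : X → X | ∀ x ∈ s, f' x = f x}
  have : {f' : X → X | ∀ x ∈ s, f' x = f x} = (s.toFinset : Set X).pi fun x => {f x} := by
    ext f'
    simp [Set.mem_pi]
  rw [this]
  exact isOpen_set_pi s.toFinset.finite_toSet fun _ _ => isOpen_discrete _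

theorem exists_support_of_continuous {X : Type u} {Y : Type v} {G : Subgroup (Equiv.Perm X)}
    {H : Subgroup (Equiv.Perm Y)} (e : G →* H)
    (he : Continuous[groupTopology G, groupTopology H] e) (y : Y) :
    ∃ s : List X, ∀ g : G, (∀ x ∈ s, g.1 x = x) → (e g).1 y = y := by
  have hV : IsOpen[groupTopology H] {h : H | h.1 y = y} := by
    refine ⟨{σ | σ y = y}, ⟨{f | ∀ x ∈ [y], f x = id x}, isOpen_cylinder _ _, ?_⟩, rfl⟩
    ext σ
    simp
  have hU := @IsOpen.preimage G H (groupTopology G) (groupTopology H) e he _ hV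
  obtain ⟨U₁, ⟨U₂, hU₂, rfl⟩, hU₁⟩ := hU
  have h1 : (1 : G) ∈ e ⁻¹' {h : H | h.1 y = y} := by simp
  rw [← hU₁] at h1
  obtain ⟨s, hs⟩ := isOpen_pointwise hU₂ h1
  refine ⟨s, fun g hg => ?_⟩
  have : g ∈ e ⁻¹' {h : H | h.1 y = y} := by
    rw [← hU₁]
    exact hs _ hg
  exact this

/-- The extension to closures of a homomorphism with finite supports. -/
theorem exists_extension {X : Type u} {Y : Type v} {G : Subgroup (Equiv.Perm X)}
    {H : Subgroup (Equiv.Perm Y)} (e : G →* H)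
    (he : ∀ y : Y, ∃ s : List X, ∀ g : G, (∀ x ∈ s, g.1 x = x) → (e g).1 y = y) :
    ∃ φ : closureMonoid G →* closureMonoid H,
      ∀ y : Y, ∃ s : List X, ∀ (f : closureMonoid G) (g : G),
        (∀ x ∈ s, g.1 x = f.1 x) → (φ f).1 y = (e g).1 y := by
  classical
  choose s hs using he
  have happ : ∀ (f : closureMonoid G) (t : List X), ∃ g : G, ∀ x ∈ t, g.1 x = f.1 x := by
    intro f t
    obtain ⟨g, hg, hgt⟩ := (mem_closureMonoid G f.1).1 f.2 t
    exact ⟨⟨g, hg⟩, hgt⟩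
  choose a ha using happ
  let Φ : closureMonoid G → Function.End Y := fun f y => (e (a f (s y))).1 y
  have hΦ : ∀ (f : closureMonoid G) (g : G) (y : Y), (∀ x ∈ s y, g.1 x = f.1 x) →
      Φ f y = (e g).1 y := by
    intro f g y hg
    have h1 := hs y (g⁻¹ * a f (s y)) (by
      intro x hx
      change g.1⁻¹ ((a f (s y)).1 x) = x
      rw [ha f (s y) x hx, ← hg x hx]
      exact g.1.symm_apply_apply x)
    rw [map_mul, map_inv] at h1
    change (e g).1⁻¹ ((e (a f (s y))).1 y) = y at h1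
    exact (Equiv.Perm.inv_eq_iff_eq.1 h1)
  have hΦM : ∀ f, Φ f ∈ closureMonoid H := by
    intro f
    refine (mem_closureMonoid H _).2 fun t => ?_
    refine ⟨(e (a f (t.flatMap s))).1, (e _).2, fun y hy => ?_⟩
    refine (hΦ f _ y fun x hx => ?_).symm
    exact ha f _ x (List.mem_flatMap.2 ⟨y, hy, hx⟩)
  have h1 : ∀ y, Φ 1 y = y := by
    intro y
    rw [hΦ 1 1 y fun x _ => rfl]
    simp
  have hmul : ∀ f f' y, Φ (f * f') y = Φ f (Φ f' y) := by
    intro f f' y
    -- approximate `f'` on the support of `y`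
    let g' := a f' (s y)
    have hg' : ∀ x ∈ s y, g'.1 x = f'.1 x := ha f' (s y)
    let g := a f ((s y).map f'.1 ++ s (Φ f' y))
    have hg1 : ∀ x ∈ s y, g.1 (f'.1 x) = f.1 (f'.1 x) := fun x hx =>
      ha f _ _ (List.mem_append_left _ (List.mem_map.2 ⟨x, hx, rfl⟩))
    have hg2 : ∀ x ∈ s (Φ f' y), g.1 x = f.1 x := fun x hx =>
      ha f _ _ (List.mem_append_right _ hx)
    rw [hΦ (f * f') (g * g') y (by
      intro x hx
      change g.1 (g'.1 x) = f.1 (f'.1 x)
      rw [hg' x hx, hg1 x hx]), hΦ f g _ hg2, hΦ f' g' y hg', map_mul]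
    rfl
  refine ⟨⟨⟨fun f => ⟨Φ f, hΦM f⟩, ?_⟩, ?_⟩, fun y => ⟨s y, fun f g hg => hΦ f g y hg⟩⟩
  · apply Subtype.ext
    funext y
    exact h1 y
  · intro f f'
    apply Subtype.ext
    funext y
    exact hmul f f' y

theorem continuous_of_support {X : Type u} {Y : Type v} {M : Submonoid (Function.End X)}
    {N : Submonoid (Function.End Y)} (φ : M → N)
    (hφ : ∀ y : Y, ∃ s : List X, ∀ f f' : M, (∀ x ∈ s, f'.1 x = f.1 x) → (φ f').1 y = (φ f).1 y) :
    Continuous[monoidTopology M, monoidTopology N] φ := by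
  let _ : TopologicalSpace Y := ⊥
  have _ : DiscreteTopology Y := ⟨rfl⟩
  let _ : TopologicalSpace M := monoidTopology M
  refine continuous_induced_rng.2 ?_
  refine continuous_pi fun y => ?_
  refine IsLocallyConstant.continuous ?_
  rw [IsLocallyConstant.iff_exists_open]
  intro f
  obtain ⟨s, hs⟩ := hφ y
  refine ⟨{f' | ∀ x ∈ s, f'.1 x = f.1 x}, ⟨{f' | ∀ x ∈ s, f' x = f.1 x}, isOpen_cylinder s f.1, rfl⟩,
    fun x _ => rfl, fun f' hf' => hs f f' hf'⟩

theorem monoidTopIso_of_groupTopIso {X : Type u} {Y : Type v} {G : Subgroup (Equiv.Perm X)}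
    {H : Subgroup (Equiv.Perm Y)} (hGH : GroupTopIso G H) :
    MonoidTopIso (closureMonoid G) (closureMonoid H) := by
  obtain ⟨e, he, he'⟩ := hGH
  obtain ⟨φ, hφ⟩ := exists_extension e.toMonoidHom
    (exists_support_of_continuous e.toMonoidHom he)
  obtain ⟨ψ, hψ⟩ := exists_extension e.symm.toMonoidHom
    (exists_support_of_continuous e.symm.toMonoidHom he')
  choose s hs using hφ
  choose t ht using hψ
  have h1 : ∀ f : closureMonoid G, ψ (φ f) = f := by
    intro f
    apply Subtype.ext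
    funext x
    obtain ⟨g, hg, hgx⟩ := (mem_closureMonoid G f.1).1 f.2 (x :: (t x).flatMap s)
    have h2 := ht x (φ f) (e ⟨g, hg⟩) (by
      intro y hy
      refine (hs y f ⟨g, hg⟩ fun z hz => ?_).symm
      exact hgx z (List.mem_cons_of_mem _ (List.mem_flatMap.2 ⟨y, hy, hz⟩)))
    refine h2.trans ?_
    change (e.symm (e ⟨g, hg⟩)).1 x = f.1 x
    rw [MulEquiv.symm_apply_apply]
    exact hgx x List.mem_cons_self
  have h2 : ∀ f : closureMonoid H, φ (ψ f) = f := by
    intro f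
    apply Subtype.ext
    funext x
    obtain ⟨g, hg, hgx⟩ := (mem_closureMonoid H f.1).1 f.2 (x :: (s x).flatMap t)
    have h2 := hs x (ψ f) (e.symm ⟨g, hg⟩) (by
      intro y hy
      refine (ht y f ⟨g, hg⟩ fun z hz => ?_).symm
      exact hgx z (List.mem_cons_of_mem _ (List.mem_flatMap.2 ⟨y, hy, hz⟩)))
    refine h2.trans ?_
    change (e (e.symm ⟨g, hg⟩)).1 x = f.1 x
    rw [MulEquiv.apply_symm_apply]
    exact hgx x List.mem_cons_self
  refine ⟨⟨⟨φ, ψ, h1, h2⟩, φ.map_mul⟩, ?_, ?_⟩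
  · refine continuous_of_support φ fun y => ⟨s y, fun f f' hff => ?_⟩
    obtain ⟨g, hg, hgx⟩ := (mem_closureMonoid G f.1).1 f.2 (s y)
    rw [hs y f ⟨g, hg⟩ hgx, hs y f' ⟨g, hg⟩ fun x hx => (hgx x hx).trans (hff x hx).symm]
  · refine continuous_of_support ψ fun y => ⟨t y, fun f f' hff => ?_⟩
    obtain ⟨g, hg, hgx⟩ := (mem_closureMonoid H f.1).1 f.2 (t y)
    rw [ht y f ⟨g, hg⟩ hgx, ht y f' ⟨g, hg⟩ fun x hx => (hgx x hx).trans (hff x hx).symm]

end Pool.Agent.Helper67.Recon
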