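import Pool.Agent.Helper67.Recon.YSide
import Pool.Agent.Helper67.Recon.Extend

/-!
Assembly: the closure of an oligomorphic group with reconstruction has reconstruction.
-/

namespace Pool.Agent.Helper67.Recon

open Topology
open scoped FirstOrder

universe u v w

/-- Closed groups contain all permutations in their closure. -/
theorem mem_of_mem_closureMonoid {X : Type w} {G : Subgroup (Equiv.Perm X)}
    (hcl : IsClosed[permTopology X] (G : Set (Equiv.Perm X))) (σ : Equiv.Perm X)
    (hσ : (σ : X → X) ∈ closureMonoid G) : σ ∈ G := by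
  by_contra hcon
  obtain ⟨U, hU, hUG⟩ := (@isOpen_compl_iff _ _ (permTopology X)).2 hcl
  have hσU : (fun x => σ x) ∈ U := by
    have : σ ∈ (fun (σ : Equiv.Perm X) x => σ x) ⁻¹' U := by rw [hUG]; exact hcon
    exact this
  obtain ⟨s, hs⟩ := isOpen_pointwise hU hσU
  obtain ⟨g, hg, hgs⟩ := (mem_closureMonoid G _).1 hσ s
  have : g ∈ (fun (σ : Equiv.Perm X) x => σ x) ⁻¹' U := hs _ hgs
  rw [hUG] at this
  exact this hg

/-- A permutation group is the unit group of a transformation monoid with the same permutations. -/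
theorem exists_mulEquiv_units {X : Type w} (H : Subgroup (Equiv.Perm X))
    (N : Submonoid (Function.End X))
    (hHN : ∀ σ : Equiv.Perm X, σ ∈ H ↔ (σ : X → X) ∈ N ∧ ((σ⁻¹ : Equiv.Perm X) : X → X) ∈ N) :
    ∃ e : H ≃* Nˣ, ∀ (h : H) (x : X), (e h).1.1 x = h.1 x := by
  refine ⟨{
    toFun := fun h => ⟨⟨fun x => h.1 x, ((hHN h.1).1 h.2).1⟩,
      ⟨fun x => (h.1⁻¹ : Equiv.Perm X) x, ((hHN h.1).1 h.2).2⟩, ?_, ?_⟩
    invFun := fun u => ⟨⟨u.1.1, u⁻¹.1.1, ?_, ?_⟩, ?_⟩
    left_inv := ?_
    right_inv := ?_
    map_mul' := ?_ }, ?_⟩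
  · apply Subtype.ext
    funext x
    exact h.1.apply_symm_apply x
  · apply Subtype.ext
    funext x
    exact h.1.symm_apply_apply x
  · intro x
    exact congrFun (congrArg Subtype.val u.inv_mul) x
  · intro x
    exact congrFun (congrArg Subtype.val u.mul_inv) x
  · exact (hHN _).2 ⟨u.1.2, u⁻¹.1.2⟩
  · intro h
    apply Subtype.ext
    ext x
    rfl
  · intro u
    apply Units.ext
    apply Subtype.ext
    rfl
  · intro a b
    apply Units.ext
    apply Subtype.ext
    rfl
  · intro h x
    rfl

theorem mem_autGroup_iff (L : FirstOrder.Language.{u, v}) (B : Type w) [L.Structure B]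
    (σ : Equiv.Perm B) : σ ∈ autGroup L B ↔
      (σ : B → B) ∈ endMonoid L B ∧ ((σ⁻¹ : Equiv.Perm B) : B → B) ∈ endMonoid L B := by
  constructor
  · intro h
    obtain ⟨φ, hφ⟩ := h
    obtain ⟨ψ, hψ⟩ := (autGroup L B).inv_mem ⟨φ, hφ⟩
    exact ⟨⟨φ.toHom, hφ⟩, ⟨ψ.toHom, hψ⟩⟩
  · rintro ⟨⟨φ, hφ⟩, ⟨ψ, hψ⟩⟩
    refine ⟨⟨σ, fun f x => ?_, fun r x => ?_⟩, fun b => rfl⟩
    · have := φ.map_fun f x
      rw [hφ] at this
      refine this.trans ?_
      congr 1
      funext i
      exact hφ (x i)
    · constructor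
      · intro h
        have := ψ.map_rel r _ h
        have heq : (ψ ∘ (σ.toFun ∘ x)) = x := by
          funext i
          rw [Function.comp_apply, hψ]
          exact σ.symm_apply_apply (x i)
        rwa [heq] at this
      · intro h
        have := φ.map_rel r x h
        have heq : (φ ∘ x) = (σ.toFun ∘ x) := by
          funext i
          exact hφ (x i)
        rwa [heq] at this

theorem endMonoid_closed (L : FirstOrder.Language.{u, v}) (B : Type w) [L.Structure B]
    (f : Function.End B) (hf : ∀ s : List B, ∃ m ∈ endMonoid L B, ∀ b ∈ s, m b = f b) :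
    f ∈ endMonoid L B := by
  refine ⟨⟨f, fun {n} F x => ?_, fun {n} r x hr => ?_⟩, fun b => rfl⟩
  · obtain ⟨m, ⟨φ, hφ⟩, hm⟩ := hf (FirstOrder.Language.Structure.funMap F x :: List.ofFn x)
    have h1 := hm _ List.mem_cons_self
    rw [← h1, ← hφ, φ.map_fun]
    congr 1
    funext i
    change φ (x i) = f (x i)
    rw [hφ]
    exact hm _ (List.mem_cons_of_mem _ (List.mem_ofFn.2 ⟨i, rfl⟩))
  · obtain ⟨m, ⟨φ, hφ⟩, hm⟩ := hf (List.ofFn x)
    have heq : (f ∘ x) = (φ ∘ x) := by
      funext i
      change f (x i) = φ (x i)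
      rw [hφ]
      exact (hm _ (List.mem_ofFn.2 ⟨i, rfl⟩)).symm
    change FirstOrder.Language.Structure.RelMap r (f ∘ x)
    rw [heq]
    exact φ.map_rel r x hr

/-- If the closure of an oligomorphic group is isomorphic to the endomorphism monoid of an
`ω`-categorical structure, then the automorphisms of that structure are dense in its
endomorphisms. -/
theorem autGroup_dense (G : Subgroup (Equiv.Perm ℕ)) (hol : Oligomorphic G)
    (L : FirstOrder.Language.{u, v}) (B : Type w) [L.Structure B] (hB : OmegaCategorical L B)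
    (e : closureMonoid G ≃* endMonoid L B) : endMonoid L B = closureMonoid (autGroup L B) := by
  classical
  have hBc : Countable B := hB.1
  have P : Helper67.Recon.Props (closureMonoid G) :=
    Helper67.Recon.props_of hol (mem_closureMonoid G)
  let act : closureMonoid G →* Function.End B := (endMonoid L B).subtype.comp e.toMonoidHom
  let _ : MulAction (closureMonoid G) B := MulAction.compHom B act
  have hsmul : ∀ (m : closureMonoid G) (b : B), m • b = (e m).1 b := fun m b => rfl
  have hfaith : FaithfulSMul (closureMonoid G) B := ⟨fun {m m'} h => by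
    apply e.injective
    apply Subtype.ext
    funext b
    exact h b⟩
  have hclosed : ∀ f : B → B,
      (∀ s : List B, ∃ m : closureMonoid G, ∀ y ∈ s, m • y = f y) →
      ∃ m : closureMonoid G, ∀ y, m • y = f y := by
    intro f hf
    have : (f : Function.End B) ∈ endMonoid L B := by
      apply endMonoid_closed
      intro s
      obtain ⟨m, hm⟩ := hf s
      exact ⟨(e m).1, (e m).2, hm⟩
    refine ⟨e.symm ⟨f, this⟩, fun y => ?_⟩
    rw [hsmul, MulEquiv.apply_symm_apply]
  -- units of the closure act as the automorphism group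
  obtain ⟨a, ha⟩ := exists_mulEquiv_units (autGroup L B) (endMonoid L B) (mem_autGroup_iff L B)
  have hunit : ∀ σ : autGroup L B, ∃ g : (closureMonoid G)ˣ, ∀ b : B, g • b = σ.1 b := by
    intro σ
    refine ⟨Units.map e.symm.toMonoidHom (a σ), fun b => ?_⟩
    change (e (e.symm (a σ).1)).1 b = σ.1 b
    rw [MulEquiv.apply_symm_apply]
    exact ha σ b
  have hunit' : ∀ g : (closureMonoid G)ˣ, ∃ σ : autGroup L B, ∀ b : B, σ.1 b = g • b := by
    intro g
    refine ⟨a.symm (Units.map e.toMonoidHom g), fun b => ?_⟩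
    rw [← ha, MulEquiv.apply_symm_apply]
    rfl
  have holY : ∀ k : ℕ, Finite (MulAction.orbitRel.Quotient (closureMonoid G)ˣ (Fin k → B)) := by
    intro k
    have := hB.2 k
    refine Finite.of_surjective (α := MulAction.orbitRel.Quotient (autGroup L B) (Fin k → B))
      (Quotient.map' id ?_) ?_
    · intro x y hxy
      obtain ⟨σ, hσ⟩ := (MulAction.orbitRel_apply).1 hxy
      obtain ⟨g, hg⟩ := hunit σ
      refine (MulAction.orbitRel_apply).2 ⟨g, ?_⟩
      funext i
      have := congrFun hσ i
      change g • y i = x i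
      rw [hg]
      exact this
    · intro q
      induction q using Quotient.inductionOn' with
      | h x => exact ⟨Quotient.mk'' x, rfl⟩
  have hdense := Helper67.Recon.units_dense (M := closureMonoid G) (Y := B) P holY hclosed
  apply le_antisymm
  · intro f hf
    refine (mem_closureMonoid _ _).2 fun s => ?_
    obtain ⟨g, hg⟩ := hdense (e.symm ⟨f, hf⟩) s
    obtain ⟨σ, hσ⟩ := hunit' g
    refine ⟨σ.1, σ.2, fun y hy => ?_⟩
    rw [hσ, hg y hy, hsmul, MulEquiv.apply_symm_apply]
  · intro f hf
    apply endMonoid_closed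
    intro s
    obtain ⟨g, hg, hgs⟩ := (mem_closureMonoid _ _).1 hf s
    exact ⟨fun x => g x, ((mem_autGroup_iff L B g).1 hg).1, hgs⟩

/-- The closure of a closed oligomorphic group with reconstruction has reconstruction. -/
theorem main (G : Subgroup (Equiv.Perm ℕ)) (hcl : IsClosed[permTopology ℕ] (G : Set (Equiv.Perm ℕ)))
    (hol : Oligomorphic G) (hrec : GroupReconstruction.{u, v, w} G) :
    MonoidReconstruction.{u, v, w} (closureMonoid G) := by
  intro L B _ hB ⟨e⟩
  have hdense := autGroup_dense G hol L B hB e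
  -- the isomorphism between the unit groups
  obtain ⟨a, -⟩ := exists_mulEquiv_units (autGroup L B) (endMonoid L B) (mem_autGroup_iff L B)
  obtain ⟨b, -⟩ := exists_mulEquiv_units G (closureMonoid G) (by
    intro σ
    have hG : ∀ τ ∈ G, (τ : ℕ → ℕ) ∈ closureMonoid G := fun τ hτ =>
      (mem_closureMonoid G _).2 fun s => ⟨τ, hτ, fun _ _ => rfl⟩
    exact ⟨fun h => ⟨hG σ h, hG _ (G.inv_mem h)⟩, fun h => mem_of_mem_closureMonoid hcl σ h.1⟩)
  have hiso := hrec L B hB ⟨b.trans ((Units.mapEquiv e).trans a.symm)⟩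
  have := monoidTopIso_of_groupTopIso hiso
  rw [← hdense] at this
  exact this

end Pool.Agent.Helper67.Recon
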