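import Pool.Agent.Helper67.Recon.Basic

/-!
Algebraic properties of the closure (in the full transformation monoid) of an oligomorphic
permutation group.
-/

namespace Helper67.Recon

open Filter

/-- The algebraic properties of a monoid used in the reconstruction argument. -/
structure Props (M : Type*) [Monoid M] : Prop where
  cancel : ∀ f a b : M, f * a = f * b → a = b
  extend : ∀ p : ℕ → M, ∃ h : M, ∀ i, ∃ g : Mˣ, h * p i = g * h
  dominion : ∀ h h₁ : M, (∀ p q : M, p * h = q * h → p * h₁ = q * h₁) → ∃ f, h₁ = h * f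
  chain : ∀ h : M, ∃ c : ℕ → M, (∀ i, c i = c (i + 1) * h) ∧
    ∀ m m' : M, (∀ i, m * c i = m' * c i) → m = m'

section

variable {X : Type*} {G : Subgroup (Equiv.Perm X)} {M : Submonoid (Function.End X)}

theorem mem_inj (hM : ∀ f : Function.End X, f ∈ M ↔ ∀ s : List X, ∃ g ∈ G, ∀ x ∈ s, g x = f x)
    (f : M) : Function.Injective (f.1 : X → X) := by
  intro x y hxy
  obtain ⟨g, -, hg⟩ := (hM f.1).1 f.2 [x, y]
  have hx := hg x (by simp)
  have hy := hg y (by simp)
  exact g.injective (by rw [hx, hy]; exact hxy)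

theorem cancel_of (hM : ∀ f : Function.End X, f ∈ M ↔ ∀ s : List X, ∃ g ∈ G, ∀ x ∈ s, g x = f x)
    (f a b : M) (h : f * a = f * b) : a = b := by
  apply Subtype.ext
  funext x
  apply mem_inj hM f
  exact congrFun (congrArg Subtype.val h) x

theorem fix_mem_range
    (hM : ∀ f : Function.End X, f ∈ M ↔ ∀ s : List X, ∃ g ∈ G, ∀ x ∈ s, g x = f x)
    (h : M) (c : List X) (x : X) (hx : ∀ g ∈ G, (∀ y ∈ c, g (h.1 y) = h.1 y) → g x = x) :
    ∃ x', h.1 x' = x := by
  obtain ⟨g1, hg1, hc1⟩ := (hM h.1).1 h.2 c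
  obtain ⟨g2, hg2, hc2⟩ := (hM h.1).1 h.2 (g1⁻¹ x :: c)
  refine ⟨g1⁻¹ x, ?_⟩
  rw [← hc2 _ List.mem_cons_self]
  have := hx (g2 * g1⁻¹) (G.mul_mem hg2 (G.inv_mem hg1)) ?_
  · simpa using this
  · intro y hy
    rw [← hc1 y hy]
    rw [Equiv.Perm.mul_apply, show g1⁻¹ (g1 y) = y from g1.symm_apply_apply y]
    rw [hc2 y (List.mem_cons_of_mem _ hy), hc1 y hy]

theorem dominion_of [Countable X]
    (olig : ∀ k : ℕ, Finite (MulAction.orbitRel.Quotient G (Fin k → X)))
    (hM : ∀ f : Function.End X, f ∈ M ↔ ∀ s : List X, ∃ g ∈ G, ∀ x ∈ s, g x = f x)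
    (h h₁ : M) (hd : ∀ p q : M, p * h = q * h → p * h₁ = q * h₁) : ∃ f, h₁ = h * f := by
  classical
  -- the range of `h₁` is contained in the range of `h`
  have hrange : ∀ c : X, ∃ x', h.1 x' = h₁.1 c := by
    intro c
    by_contra hcon
    set x := h₁.1 c with hx
    have : Nonempty X := ⟨x⟩
    obtain ⟨e, he⟩ := exists_surjective_nat X
    have hn : ∀ n : ℕ, ∃ g : G, (∀ i < n, g • (h.1 (e i)) = h.1 (e i)) ∧ g • x ≠ x := by
      intro n
      by_contra hcon2
      refine hcon (fix_mem_range hM h ((List.range n).map e) x fun g hg hgc => ?_)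
      by_contra hgx
      refine hcon2 ⟨⟨g, hg⟩, fun i hi => ?_, hgx⟩
      exact hgc _ (List.mem_map.2 ⟨i, List.mem_range.2 hi, rfl⟩)
    choose g hg1 hg2 using hn
    obtain ⟨v, hv⟩ := exists_limit (G := G) (W := X) (D := X ⊕ X) olig
      (fun n => Sum.elim (fun y => y) (fun y => g n • y))
    have hv1 : (fun y => v (Sum.inl y) : Function.End X) ∈ M := by
      refine (hM _).2 fun s => ?_
      obtain ⟨n, k, hk⟩ := (hv (s.map Sum.inl)).exists
      refine ⟨k.1, k.2, fun y hy => ?_⟩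
      exact hk (Sum.inl y) (List.mem_map.2 ⟨y, hy, rfl⟩)
    have hv2 : (fun y => v (Sum.inr y) : Function.End X) ∈ M := by
      refine (hM _).2 fun s => ?_
      obtain ⟨n, k, hk⟩ := (hv (s.map Sum.inr)).exists
      refine ⟨(k * g n).1, (k * g n).2, fun y hy => ?_⟩
      exact hk (Sum.inr y) (List.mem_map.2 ⟨y, hy, rfl⟩)
    have heq : (⟨_, hv1⟩ : M) * h = (⟨_, hv2⟩ : M) * h := by
      apply Subtype.ext
      funext y
      change v (Sum.inl (h.1 y)) = v (Sum.inr (h.1 y))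
      obtain ⟨i, rfl⟩ := he y
      obtain ⟨n, ⟨k, hk⟩, hin⟩ := ((hv [Sum.inl (h.1 (e i)), Sum.inr (h.1 (e i))]).and
        (eventually_UU_ge (i + 1))).exists
      rw [← hk (Sum.inl (h.1 (e i))) (by simp), ← hk (Sum.inr (h.1 (e i))) (by simp)]
      simp only [Sum.elim_inl, Sum.elim_inr]
      rw [hg1 n i (by omega)]
    have hne := congrFun (congrArg Subtype.val (hd _ _ heq)) c
    change v (Sum.inl (h₁.1 c)) = v (Sum.inr (h₁.1 c)) at hne
    rw [← hx] at hne
    obtain ⟨n, k, hk⟩ := (hv [Sum.inl x, Sum.inr x]).exists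
    rw [← hk (Sum.inl x) (by simp), ← hk (Sum.inr x) (by simp)] at hne
    simp only [Sum.elim_inl, Sum.elim_inr] at hne
    exact hg2 n ((MulAction.injective k hne).symm)
  choose σ hσ using hrange
  have hσM : (σ : Function.End X) ∈ M := by
    refine (hM _).2 fun s => ?_
    obtain ⟨g1, hg1, h1⟩ := (hM h₁.1).1 h₁.2 s
    obtain ⟨g2, hg2, h2⟩ := (hM h.1).1 h.2 (s.map σ)
    refine ⟨g2⁻¹ * g1, G.mul_mem (G.inv_mem hg2) hg1, fun x hx => ?_⟩
    rw [Equiv.Perm.mul_apply, h1 x hx, ← hσ x, ← h2 (σ x) (List.mem_map.2 ⟨x, hx, rfl⟩)]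
    simp
  refine ⟨⟨σ, hσM⟩, ?_⟩
  apply Subtype.ext
  funext x
  exact (hσ x).symm

theorem chain_shift
    (hM : ∀ f : Function.End X, f ∈ M ↔ ∀ s : List X, ∃ g ∈ G, ∀ x ∈ s, g x = f x)
    (h : M) (l : List ((ℕ × X) × X)) (N N' : ℕ) (hN : N ≤ N') (hl : ∀ p ∈ l, p.1.1 ≤ N)
    (hg : ∃ g ∈ G, ∀ p ∈ l, g ((h ^ (N - p.1.1)).1 p.1.2) = p.2) :
    ∃ g ∈ G, ∀ p ∈ l, g ((h ^ (N' - p.1.1)).1 p.1.2) = p.2 := by
  obtain ⟨g, hg, hgl⟩ := hg
  obtain ⟨g2, hg2, h2⟩ := (hM (h ^ (N' - N)).1).1 (h ^ (N' - N)).2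
    (l.map fun p => (h ^ (N - p.1.1)).1 p.1.2)
  refine ⟨g * g2⁻¹, G.mul_mem hg (G.inv_mem hg2), fun p hp => ?_⟩
  have h3 : (h ^ (N' - p.1.1)).1 p.1.2 = (h ^ (N' - N)).1 ((h ^ (N - p.1.1)).1 p.1.2) := by
    have : N' - p.1.1 = (N' - N) + (N - p.1.1) := by have := hl p hp; omega
    rw [this, pow_add]
    rfl
  rw [h3, ← h2 _ (List.mem_map.2 ⟨p, hp, rfl⟩), Equiv.Perm.mul_apply,
    show g2⁻¹ (g2 ((h ^ (N - p.1.1)).1 p.1.2)) = _ from g2.symm_apply_apply _]
  exact hgl p hp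

theorem chain_of [Countable X]
    (hM : ∀ f : Function.End X, f ∈ M ↔ ∀ s : List X, ∃ g ∈ G, ∀ x ∈ s, g x = f x)
    (h : M) : ∃ c : ℕ → M, (∀ i, c i = c (i + 1) * h) ∧
    ∀ m m' : M, (∀ i, m * c i = m' * c i) → m = m' := by
  classical
  let R : List ((ℕ × X) × X) → Prop := fun l =>
    ∃ N, (∀ p ∈ l, p.1.1 ≤ N) ∧ ∃ g ∈ G, ∀ p ∈ l, g ((h ^ (N - p.1.1)).1 p.1.2) = p.2
  obtain ⟨u, v, huv⟩ := exists_backForth R ⟨0, by simp, 1, G.one_mem, by simp⟩
    (by
      rintro l ⟨N, hN, hg⟩ ⟨i, x⟩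
      obtain ⟨g, hg, hgl⟩ := chain_shift hM h l N (max N i) (le_max_left _ _) hN hg
      refine ⟨g ((h ^ (max N i - i)).1 x), max N i, ?_, g, hg, ?_⟩
      · intro p hp
        rcases List.mem_cons.1 hp with rfl | hp
        · exact le_max_right _ _
        · exact (hN p hp).trans (le_max_left _ _)
      · intro p hp
        rcases List.mem_cons.1 hp with rfl | hp
        · rfl
        · exact hgl p hp)
    (by
      rintro l ⟨N, hN, g, hg, hgl⟩ y
      refine ⟨(N, g⁻¹ y), N, ?_, g, hg, ?_⟩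
      · intro p hp
        rcases List.mem_cons.1 hp with rfl | hp
        · exact le_rfl
        · exact hN p hp
      · intro p hp
        rcases List.mem_cons.1 hp with rfl | hp
        · change g ((h ^ (N - N)).1 (g⁻¹ y)) = y
          rw [Nat.sub_self, pow_zero]
          exact g.apply_symm_apply y
        · exact hgl p hp)
    (by
      rintro l l' hll ⟨N, hN, g, hg, hgl⟩
      exact ⟨N, fun p hp => hN p (hll hp), g, hg, fun p hp => hgl p (hll hp)⟩)
  have hcM : ∀ i, (fun x => u (i, x) : Function.End X) ∈ M := by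
    intro i
    refine (hM _).2 fun s => ?_
    obtain ⟨N, hN, g, hg, hgl⟩ := huv (s.map fun x => (i, x)) []
    obtain ⟨g2, hg2, h2⟩ := (hM (h ^ (N - i)).1).1 (h ^ (N - i)).2 s
    refine ⟨g * g2, G.mul_mem hg hg2, fun x hx => ?_⟩
    rw [Equiv.Perm.mul_apply, h2 x hx]
    exact hgl ((i, x), u (i, x)) (by simpa using hx)
  have hstep : ∀ i x, u (i, x) = u (i + 1, h.1 x) := by
    intro i x
    obtain ⟨N, hN, g, hg, hgl⟩ := huv [(i, x), (i + 1, h.1 x)] []
    have h1 := hgl ((i, x), u (i, x)) (by simp)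
    have h2 := hgl ((i + 1, h.1 x), u (i + 1, h.1 x)) (by simp)
    have h3 := hN ((i + 1, h.1 x), u (i + 1, h.1 x)) (by simp)
    simp only at h1 h2 h3
    rw [← h1, ← h2]
    congr 1
    have : N - i = (N - (i + 1)) + 1 := by omega
    rw [this, pow_add, pow_one]
    rfl
  have hsurj : ∀ y, u (v y) = y := by
    intro y
    obtain ⟨N, hN, g, hg, hgl⟩ := huv [v y] [y]
    have h1 := hgl (v y, u (v y)) (by simp)
    have h2 := hgl (v y, y) (by simp)
    exact h1.symm.trans h2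
  refine ⟨fun i => ⟨_, hcM i⟩, fun i => ?_, fun m m' hmm => ?_⟩
  · apply Subtype.ext
    funext x
    exact hstep i x
  · apply Subtype.ext
    funext y
    have h1 := congrFun (congrArg Subtype.val (hmm (v y).1)) (v y).2
    have h2 : u ((v y).1, (v y).2) = y := hsurj y
    change m.1 (u ((v y).1, (v y).2)) = m'.1 (u ((v y).1, (v y).2)) at h1
    rw [h2] at h1
    exact h1

/-- The finite partial map from sequences to points preserves limit types. -/
def LimRel (G : Subgroup (Equiv.Perm X)) (l : List ((ℕ → X) × X)) : Prop :=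
  ∀ᶠ n in (UU : Filter ℕ), ∃ g : G, ∀ p ∈ l, g • p.1 n = p.2

theorem extend_of [Countable X]
    (olig : ∀ k : ℕ, Finite (MulAction.orbitRel.Quotient G (Fin k → X)))
    (hM : ∀ f : Function.End X, f ∈ M ↔ ∀ s : List X, ∃ g ∈ G, ∀ x ∈ s, g x = f x)
    (p : ℕ → M) : ∃ h : M, ∀ i, ∃ g : Mˣ, h * p i = g * h := by
  classical
  rcases isEmpty_or_nonempty X with hX | hX
  · refine ⟨1, fun i => ⟨1, ?_⟩⟩
    apply Subtype.ext
    funext x
    exact (hX.false x).elim
  obtain ⟨e, he⟩ := exists_surjective_nat X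
  -- approximations of `p i` by group elements
  have happ : ∀ i n : ℕ, ∃ g : G, ∀ j < n, g • e j = (p i).1 (e j) := by
    intro i n
    obtain ⟨g, hg, hgl⟩ := (hM (p i).1).1 (p i).2 ((List.range n).map e)
    refine ⟨⟨g, hg⟩, fun j hj => ?_⟩
    exact hgl _ (List.mem_map.2 ⟨j, List.mem_range.2 hj, rfl⟩)
  choose k hk using happ
  -- forth and back steps for `LimRel`
  have hforth : ∀ l, LimRel G l → ∀ d : ℕ → X, ∃ y, LimRel G ((d, y) :: l) := fun l hl d =>
    forth_step (G := G) (W := X) (S := ℕ → X) olig (fun n d => d n) l hl d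
  have hback : ∀ (l : List ((ℕ → X) × X)) (y : X), ∃ d : ℕ → X, LimRel G l → LimRel G ((d, y) :: l) := by
    intro l y
    refine ⟨fun n => if h : ∃ g : G, ∀ p ∈ l, g • p.1 n = p.2 then (h.choose)⁻¹ • y else y,
      fun hl => hl.mono fun n hn => ⟨hn.choose, fun p hp => ?_⟩⟩
    rcases List.mem_cons.1 hp with rfl | hp
    · simp only [dif_pos hn]
      exact smul_inv_smul _ _
    · exact hn.choose_spec p hp
  choose w hw using hback
  -- a countable set of sequences closed under all relevant operations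
  let F : ((ℕ ⊕ ℕ) ⊕ (List X × X)) → List (ℕ → X) → (ℕ → X) := fun i ds =>
    match i with
    | Sum.inl (Sum.inl j) => fun n => k j n • (ds.headD (fun _ => hX.some)) n
    | Sum.inl (Sum.inr j) => fun n => (k j n)⁻¹ • (ds.headD (fun _ => hX.some)) n
    | Sum.inr (xs, y) => w (ds.zip xs) y
  obtain ⟨D, hD0, hDc, hD⟩ := exists_countable_closed F (Set.range fun x : X => fun _ : ℕ => x)
    (Set.countable_range _)
  have hDk : ∀ j (d : ℕ → X), d ∈ D → (fun n => k j n • d n) ∈ D := fun j d hd => by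
    have := hD (Sum.inl (Sum.inl j)) [d] (by simpa using hd)
    simpa [F] using this
  have hDk' : ∀ j (d : ℕ → X), d ∈ D → (fun n => (k j n)⁻¹ • d n) ∈ D := fun j d hd => by
    have := hD (Sum.inl (Sum.inr j)) [d] (by simpa using hd)
    simpa [F] using this
  have hDw : ∀ (l : List ((ℕ → X) × X)) (y : X), (∀ q ∈ l, q.1 ∈ D) → w l y ∈ D := by
    intro l y hl
    have := hD (Sum.inr (l.map Prod.snd, y)) (l.map Prod.fst) (by
      intro s hs
      obtain ⟨q, hq, rfl⟩ := List.mem_map.1 hs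
      exact hl q hq)
    have hz : (l.map Prod.fst).zip (l.map Prod.snd) = l :=
      (List.zip_of_prod rfl rfl).symm
    simp only [F] at this
    rwa [hz] at this
  have hDcount : Countable ↥D := hDc.to_subtype
  obtain ⟨u, v, huv⟩ := exists_backForth
    (fun l : List (↥D × X) => LimRel G (l.map fun q => (q.1.1, q.2)))
    (by simp [LimRel])
    (by
      intro l hl d
      obtain ⟨y, hy⟩ := hforth _ hl d.1
      exact ⟨y, by simpa using hy⟩)
    (by
      intro l hl y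
      refine ⟨⟨w (l.map fun q => (q.1.1, q.2)) y, hDw _ y ?_⟩, ?_⟩
      · intro q hq
        obtain ⟨q', -, rfl⟩ := List.mem_map.1 hq
        exact q'.1.2
      · simpa using hw _ y hl)
    (by
      intro l l' hll hl
      refine hl.mono fun n ⟨g, hg⟩ => ⟨g, fun q hq => hg q ?_⟩
      exact List.map_subset _ hll hq)
  have huv' : ∀ (s : List ↥D) (t : List X), ∀ᶠ n in (UU : Filter ℕ), ∃ g : G,
      (∀ d ∈ s, g • d.1 n = u d) ∧ ∀ y ∈ t, g • (v y).1 n = y := by
    intro s t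
    refine (huv s t).mono fun n ⟨g, hg⟩ => ⟨g, fun d hd => ?_, fun y hy => ?_⟩
    · exact hg (d.1, u d) (by
        simp only [List.map_append, List.map_map, List.mem_append, List.mem_map]
        exact Or.inl ⟨d, hd, rfl⟩)
    · exact hg ((v y).1, y) (by
        simp only [List.map_append, List.map_map, List.mem_append, List.mem_map]
        exact Or.inr ⟨y, hy, rfl⟩)
  -- `u` identifies sequences which agree along the ultrafilter
  have hueq : ∀ d d' : ↥D, (∀ᶠ n in (UU : Filter ℕ), d.1 n = d'.1 n) → u d = u d' := by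
    intro d d' h
    obtain ⟨n, ⟨g, hg, -⟩, hn⟩ := ((huv' [d, d'] []).and h).exists
    rw [← hg d (by simp), ← hg d' (by simp), hn]
  have huvy : ∀ y, u (v y) = y := by
    intro y
    obtain ⟨n, g, hg, hg'⟩ := (huv' [v y] [y]).exists
    rw [← hg (v y) (by simp)]
    exact hg' y (by simp)
  have hvu : ∀ d : ↥D, ∀ᶠ n in (UU : Filter ℕ), (v (u d)).1 n = d.1 n := by
    intro d
    refine (huv' [d] [u d]).mono fun n ⟨g, hg, hg'⟩ => ?_
    have h1 := hg d (by simp)
    have h2 := hg' (u d) (by simp)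
    exact MulAction.injective g (h2.trans h1.symm)
  -- the automorphisms
  let a : ℕ → Function.End X := fun i y => u ⟨_, hDk i (v y).1 (v y).2⟩
  let b : ℕ → Function.End X := fun i y => u ⟨_, hDk' i (v y).1 (v y).2⟩
  have haM : ∀ i, a i ∈ M := by
    intro i
    refine (hM _).2 fun s => ?_
    obtain ⟨n, g, hg, hg'⟩ := (huv' (s.map fun y => ⟨_, hDk i (v y).1 (v y).2⟩) s).exists
    refine ⟨(g * k i n * g⁻¹ : G).1, (g * k i n * g⁻¹ : G).2, fun y hy => ?_⟩
    have h1 := hg ⟨_, hDk i (v y).1 (v y).2⟩ (List.mem_map.2 ⟨y, hy, rfl⟩)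
    have h2 := hg' y hy
    change (g * k i n * g⁻¹) • y = _
    rw [mul_smul, mul_smul]
    nth_rewrite 1 [← h2]
    rw [inv_smul_smul]
    exact h1
  have hbM : ∀ i, b i ∈ M := by
    intro i
    refine (hM _).2 fun s => ?_
    obtain ⟨n, g, hg, hg'⟩ := (huv' (s.map fun y => ⟨_, hDk' i (v y).1 (v y).2⟩) s).exists
    refine ⟨(g * (k i n)⁻¹ * g⁻¹ : G).1, (g * (k i n)⁻¹ * g⁻¹ : G).2, fun y hy => ?_⟩
    have h1 := hg ⟨_, hDk' i (v y).1 (v y).2⟩ (List.mem_map.2 ⟨y, hy, rfl⟩)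
    have h2 := hg' y hy
    change (g * (k i n)⁻¹ * g⁻¹) • y = _
    rw [mul_smul, mul_smul]
    nth_rewrite 1 [← h2]
    rw [inv_smul_smul]
    exact h1
  have hab : ∀ i y, a i (b i y) = y := by
    intro i y
    refine (hueq _ (v y) ?_).trans (huvy y)
    refine (hvu ⟨_, hDk' i (v y).1 (v y).2⟩).mono fun n hn => ?_
    change k i n • (v (b i y)).1 n = (v y).1 n
    change (v (b i y)).1 n = (k i n)⁻¹ • (v y).1 n at hn
    rw [hn, smul_inv_smul]
  have hba : ∀ i y, b i (a i y) = y := by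
    intro i y
    refine (hueq _ (v y) ?_).trans (huvy y)
    refine (hvu ⟨_, hDk i (v y).1 (v y).2⟩).mono fun n hn => ?_
    change (k i n)⁻¹ • (v (a i y)).1 n = (v y).1 n
    change (v (a i y)).1 n = k i n • (v y).1 n at hn
    rw [hn, inv_smul_smul]
  -- the embedding
  let h : Function.End X := fun x => u ⟨fun _ => x, hD0 ⟨x, rfl⟩⟩
  have hhM : h ∈ M := by
    refine (hM _).2 fun s => ?_
    obtain ⟨n, g, hg, -⟩ := (huv' (s.map fun x => ⟨fun _ => x, hD0 ⟨x, rfl⟩⟩) []).exists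
    refine ⟨g.1, g.2, fun x hx => ?_⟩
    exact hg ⟨fun _ => x, hD0 ⟨x, rfl⟩⟩ (List.mem_map.2 ⟨x, hx, rfl⟩)
  refine ⟨⟨h, hhM⟩, fun i => ⟨⟨⟨a i, haM i⟩, ⟨b i, hbM i⟩, ?_, ?_⟩, ?_⟩⟩
  · apply Subtype.ext
    funext y
    exact hab i y
  · apply Subtype.ext
    funext y
    exact hba i y
  · apply Subtype.ext
    funext x
    obtain ⟨j, rfl⟩ := he x
    change h ((p i).1 (e j)) = a i (h (e j))
    apply hueq
    refine ((hvu ⟨fun _ => e j, hD0 ⟨e j, rfl⟩⟩).and (eventually_UU_ge (j + 1))).mono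
      fun n ⟨hn, hjn⟩ => ?_
    change (v (h (e j))).1 n = e j at hn
    change (p i).1 (e j) = k i n • (v (h (e j))).1 n
    rw [hn, hk i n j (by omega)]

theorem props_of [Countable X]
    (olig : ∀ k : ℕ, Finite (MulAction.orbitRel.Quotient G (Fin k → X)))
    (hM : ∀ f : Function.End X, f ∈ M ↔ ∀ s : List X, ∃ g ∈ G, ∀ x ∈ s, g x = f x) :
    Props M where
  cancel := cancel_of hM
  extend := extend_of olig hM
  dominion := dominion_of olig hM
  chain := chain_of hM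

end

end Helper67.Recon
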