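import Pool.Agent.Helper67.Recon.XSide

/-!
The reconstruction argument: a monoid with the properties `Props` acting faithfully on a countable
set, with closed image and with finitely many orbits of units on tuples, has dense units.
-/

namespace Helper67.Recon

open Filter

section

variable {M Y : Type*} [Monoid M] [MulAction M Y]

/-- There is an element of the monoid after which all elements of the monoid preserve types. -/
theorem exists_star [Countable Y] (P : Props M) :
    ∃ h : M, ∀ (m : M) (s : List Y), ∃ g : Mˣ, ∀ y ∈ s, h • m • y = g • h • y := by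
  classical
  obtain ⟨e, he⟩ := exists_surjective_nat (List (Y × Y))
  let q : List (Y × Y) → M := fun l =>
    if H : ∃ m : M, ∀ p ∈ l, m • p.1 = p.2 then H.choose else 1
  obtain ⟨h, hh⟩ := P.extend fun n => q (e n)
  refine ⟨h, fun m s => ?_⟩
  obtain ⟨n, hn⟩ := he (s.map fun y => (y, m • y))
  obtain ⟨g, hg⟩ := hh n
  refine ⟨g, fun y hy => ?_⟩
  have H : ∃ m : M, ∀ p ∈ e n, m • p.1 = p.2 := by
    refine ⟨m, fun p hp => ?_⟩
    rw [hn] at hp
    obtain ⟨y, -, rfl⟩ := List.mem_map.1 hp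
    rfl
  have hq : q (e n) • y = m • y := by
    have : q (e n) = H.choose := dif_pos H
    rw [this]
    exact H.choose_spec (y, m • y) (by rw [hn]; exact List.mem_map.2 ⟨y, hy, rfl⟩)
  rw [← hq, ← mul_smul, hg, mul_smul]
  rfl

variable (h : M)

/-- A self-map of `Y` which preserves the types of `h`-images. -/
def Good (u : Y → Y) : Prop := ∀ s : List Y, ∃ g : Mˣ, ∀ y ∈ s, h • u y = g • h • y

/-- Equality of types of `h`-images of tuples. -/
def Rel (l : List (Y × Y)) : Prop := ∃ g : Mˣ, ∀ p ∈ l, h • p.2 = g • h • p.1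

variable {h}

theorem Rel.sub {l l' : List (Y × Y)} (hl : Rel h l) (hll : l' ⊆ l) : Rel h l' := by
  obtain ⟨g, hg⟩ := hl
  exact ⟨g, fun p hp => hg p (hll hp)⟩

theorem Rel.swap {l : List (Y × Y)} (hl : Rel h l) : Rel h (l.map Prod.swap) := by
  obtain ⟨g, hg⟩ := hl
  refine ⟨g⁻¹, fun p hp => ?_⟩
  obtain ⟨q, hq, rfl⟩ := List.mem_map.1 hp
  simp only [Prod.fst_swap, Prod.snd_swap]
  rw [hg q hq, inv_smul_smul]

/-- Every good map is induced by an element of the monoid. -/
theorem Good.exists_eq [FaithfulSMul M Y] (P : Props M)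
    (hclosed : ∀ f : Y → Y, (∀ s : List Y, ∃ m : M, ∀ y ∈ s, m • y = f y) →
      ∃ m : M, ∀ y, m • y = f y)
    {u : Y → Y} (hu : Good h u) : ∃ f : M, ∀ y, h • f • y = h • u y := by
  obtain ⟨j, hj⟩ := hclosed (fun y => h • u y) (by
    intro s
    obtain ⟨g, hg⟩ := hu s
    refine ⟨g * h, fun y hy => ?_⟩
    rw [hg y hy, mul_smul]
    rfl)
  obtain ⟨f, hf⟩ := P.dominion h j (by
    intro p q hpq
    refine eq_of_smul_eq_smul (α := Y) fun y => ?_
    rw [mul_smul, mul_smul, hj y, ← mul_smul, ← mul_smul, hpq])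
  refine ⟨f, fun y => ?_⟩
  rw [← hj y, hf, mul_smul]

theorem good_mul (star : ∀ (m : M) (s : List Y), ∃ g : Mˣ, ∀ y ∈ s, h • m • y = g • h • y)
    (m : M) : Good h (fun y : Y => m • y) := star m

theorem smul_eq_iff (star : ∀ (m : M) (s : List Y), ∃ g : Mˣ, ∀ y ∈ s, h • m • y = g • h • y)
    (m : M) (x y : Y) : h • m • x = h • m • y ↔ h • x = h • y := by
  obtain ⟨g, hg⟩ := star m [x, y]
  rw [hg x (by simp), hg y (by simp)]
  exact (MulAction.injective g).eq_iff

theorem eq_of_forall [FaithfulSMul M Y] (P : Props M) {m m' : M}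
    (hm : ∀ y : Y, h • m • y = h • m' • y) : m = m' := by
  apply P.cancel h
  refine eq_of_smul_eq_smul (α := Y) fun y => ?_
  rw [mul_smul, mul_smul, hm]

/-- The limit of an `h`-chain, as a subset of `Y`. -/
def ChainSet (h : M) (c : ℕ → M) : Set Y := {y | ∃ (i : ℕ) (x : Y), h • y = h • c i • x}

theorem chain_index {c : ℕ → M} (hc : ∀ i, c i = c (i + 1) * h) {y : Y} {i : ℕ} {x : Y}
    (hy : h • y = h • c i • x) (j : ℕ) (hij : i ≤ j) : ∃ x' : Y, h • y = h • c j • x' := by
  induction hij with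
  | refl => exact ⟨x, hy⟩
  | @step m _ ih =>
    obtain ⟨x', hx'⟩ := ih
    refine ⟨h • x', ?_⟩
    rw [hx', hc m, mul_smul]

theorem chain_common {c : ℕ → M} (hc : ∀ i, c i = c (i + 1) * h) (l : List Y)
    (hl : ∀ y ∈ l, y ∈ ChainSet h c) : ∃ j, ∀ y ∈ l, ∃ x : Y, h • y = h • c j • x := by
  induction l with
  | nil => exact ⟨0, by simp⟩
  | cons a l ih =>
    obtain ⟨j, hj⟩ := ih fun y hy => hl y (List.mem_cons_of_mem _ hy)
    obtain ⟨i, x, hx⟩ := hl a List.mem_cons_self
    refine ⟨max i j, fun y hy => ?_⟩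
    rcases List.mem_cons.1 hy with rfl | hy
    · exact chain_index hc hx _ (le_max_left _ _)
    · obtain ⟨x', hx'⟩ := hj y hy
      exact chain_index hc hx' _ (le_max_right _ _)

/-- Homogeneity of the limit of the `h`-chain. -/
theorem rel_forth (star : ∀ (m : M) (s : List Y), ∃ g : Mˣ, ∀ y ∈ s, h • m • y = g • h • y)
    {c : ℕ → M} (hc : ∀ i, c i = c (i + 1) * h) (l : List (Y × Y))
    (h1 : ∀ p ∈ l, p.1 ∈ ChainSet h c) (h2 : ∀ p ∈ l, p.2 ∈ ChainSet h c) (hl : Rel h l)
    (y : Y) (hy : y ∈ ChainSet h c) :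
    ∃ y' ∈ ChainSet h c, Rel h ((y, y') :: l) := by
  classical
  obtain ⟨g, hg⟩ := hl
  obtain ⟨i, hi⟩ := chain_common hc (y :: (l.map Prod.fst ++ l.map Prod.snd)) (by
    intro z hz
    rcases List.mem_cons.1 hz with rfl | hz
    · exact hy
    rcases List.mem_append.1 hz with hz | hz
    · obtain ⟨p, hp, rfl⟩ := List.mem_map.1 hz
      exact h1 p hp
    · obtain ⟨p, hp, rfl⟩ := List.mem_map.1 hz
      exact h2 p hp)
  choose! r hr using hi
  have hry := hr y List.mem_cons_self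
  have hr1 : ∀ p ∈ l, h • p.1 = h • c i • r p.1 := fun p hp => hr _
    (List.mem_cons_of_mem _ (List.mem_append_left _ (List.mem_map.2 ⟨p, hp, rfl⟩)))
  have hr2 : ∀ p ∈ l, h • p.2 = h • c i • r p.2 := fun p hp => hr _
    (List.mem_cons_of_mem _ (List.mem_append_right _ (List.mem_map.2 ⟨p, hp, rfl⟩)))
  obtain ⟨g1, hg1⟩ := star (c i) (r y :: (l.map (fun p => r p.1) ++ l.map fun p => r p.2))
  have hg1y := hg1 (r y) List.mem_cons_self
  have hg11 : ∀ p ∈ l, h • c i • r p.1 = g1 • h • r p.1 := fun p hp => hg1 _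
    (List.mem_cons_of_mem _ (List.mem_append_left _ (List.mem_map.2 ⟨p, hp, rfl⟩)))
  have hg12 : ∀ p ∈ l, h • c i • r p.2 = g1 • h • r p.2 := fun p hp => hg1 _
    (List.mem_cons_of_mem _ (List.mem_append_right _ (List.mem_map.2 ⟨p, hp, rfl⟩)))
  -- `g2` maps the `h`-images of the first representatives to those of the second ones
  set g2 : Mˣ := g1⁻¹ * g * g1 with hg2
  have hg2l : ∀ p ∈ l, h • r p.2 = g2 • h • r p.1 := by
    intro p hp
    have := hg p hp
    rw [hr1 p hp, hr2 p hp, hg11 p hp, hg12 p hp] at this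
    rw [hg2, mul_smul, mul_smul, ← this, inv_smul_smul]
  obtain ⟨g4, hg4⟩ := star (c (i + 1) * (g2 : M) * h) (r y :: l.map fun p => r p.1)
  refine ⟨c (i + 1) • (g2 : M) • h • r y, ⟨i + 1, (g2 : M) • h • r y, rfl⟩, g4 * g1⁻¹, ?_⟩
  intro p hp
  rcases List.mem_cons.1 hp with rfl | hp
  · change h • c (i + 1) • (g2 : M) • h • r y = (g4 * g1⁻¹) • h • y
    have := hg4 (r y) List.mem_cons_self
    rw [mul_smul, mul_smul] at this
    rw [this, hry, hg1y, mul_smul, inv_smul_smul]
  · have := hg4 (r p.1) (List.mem_cons_of_mem _ (List.mem_map.2 ⟨p, hp, rfl⟩))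
    rw [mul_smul, mul_smul] at this
    rw [hr2 p hp, hc i, mul_smul, hg2l p hp]
    change h • c (i + 1) • (g2 : M) • h • r p.1 = _
    rw [this, hr1 p hp, hg11 p hp, mul_smul, inv_smul_smul]

/-- Good maps into the chain set which fix a given finite part of it modulo `h`. -/
theorem exists_retract [Countable Y] [FaithfulSMul M Y] (P : Props M)
    (hclosed : ∀ f : Y → Y, (∀ s : List Y, ∃ m : M, ∀ y ∈ s, m • y = f y) →
      ∃ m : M, ∀ y, m • y = f y)
    (star : ∀ (m : M) (s : List Y), ∃ g : Mˣ, ∀ y ∈ s, h • m • y = g • h • y)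
    {c : ℕ → M} (hc : ∀ i, c i = c (i + 1) * h) (b : List Y) (hb : ∀ y ∈ b, y ∈ ChainSet h c) :
    ∃ m : M, (∀ y : Y, m • y ∈ ChainSet h c) ∧ ∀ y ∈ b, h • m • y = h • y := by
  classical
  have hc0 : ∀ y : Y, c 0 • y ∈ ChainSet h c := fun y => ⟨0, y, rfl⟩
  let l0 : List (Y × Y) := b.map fun y => (c 0 • y, y)
  obtain ⟨σ, hσ⟩ := exists_forth (α := ↥(ChainSet (Y := Y) h c)) (β := ↥(ChainSet (Y := Y) h c))
    (fun l => Rel h (l.map (fun p => (p.1.1, p.2.1)) ++ l0))
    (by
      obtain ⟨g, hg⟩ := star (c 0) b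
      refine ⟨g⁻¹, fun p hp => ?_⟩
      simp only [List.map_nil, List.nil_append, l0] at hp
      obtain ⟨y, hy, rfl⟩ := List.mem_map.1 hp
      simp only
      rw [hg y hy, inv_smul_smul])
    (by
      intro l hl a
      obtain ⟨y', hy', hR⟩ := rel_forth star hc _ (by
          intro p hp
          rcases List.mem_append.1 hp with hp | hp
          · obtain ⟨q, -, rfl⟩ := List.mem_map.1 hp
            exact q.1.2
          · obtain ⟨y, -, rfl⟩ := List.mem_map.1 hp
            exact hc0 y) (by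
          intro p hp
          rcases List.mem_append.1 hp with hp | hp
          · obtain ⟨q, -, rfl⟩ := List.mem_map.1 hp
            exact q.2.2
          · obtain ⟨y, hy, rfl⟩ := List.mem_map.1 hp
            exact hb y hy) hl a.1 a.2
      exact ⟨⟨y', hy'⟩, by simpa using hR⟩)
    (by
      intro l l' hll hl
      refine hl.sub ?_
      intro p hp
      rcases List.mem_append.1 hp with hp | hp
      · exact List.mem_append_left _ (List.map_subset _ hll hp)
      · exact List.mem_append_right _ hp)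
  let u : Y → Y := fun y => (σ ⟨c 0 • y, hc0 y⟩).1
  have hu : Good h u := by
    intro s
    obtain ⟨g, hg⟩ := hσ (s.map fun y => ⟨c 0 • y, hc0 y⟩)
    obtain ⟨g', hg'⟩ := star (c 0) s
    refine ⟨g * g', fun y hy => ?_⟩
    have := hg (c 0 • y, u y) (List.mem_append_left _ (by
      simp only [List.map_map, List.mem_map]
      exact ⟨y, hy, rfl⟩))
    simp only at this
    rw [this, hg' y hy, mul_smul]
  obtain ⟨m, hm⟩ := hu.exists_eq P hclosed
  refine ⟨m, fun y => ?_, fun y hy => ?_⟩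
  · obtain ⟨i, x, hx⟩ := (σ ⟨c 0 • y, hc0 y⟩).2
    exact ⟨i, x, (hm y).trans hx⟩
  · rw [hm y]
    obtain ⟨g, hg⟩ := hσ [⟨c 0 • y, hc0 y⟩]
    have h1 := hg (c 0 • y, u y) (by simp [u])
    have h2 := hg (c 0 • y, y) (List.mem_append_right _ (List.mem_map.2 ⟨y, hy, rfl⟩))
    simp only at h1 h2
    rw [h1, h2]

/-- The chain set is everything. -/
theorem mem_chainSet [Countable Y] [FaithfulSMul M Y] (P : Props M)
    (olig : ∀ k : ℕ, Finite (MulAction.orbitRel.Quotient Mˣ (Fin k → Y)))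
    (hclosed : ∀ f : Y → Y, (∀ s : List Y, ∃ m : M, ∀ y ∈ s, m • y = f y) →
      ∃ m : M, ∀ y, m • y = f y)
    (star : ∀ (m : M) (s : List Y), ∃ g : Mˣ, ∀ y ∈ s, h • m • y = g • h • y)
    {c : ℕ → M} (hc : ∀ i, c i = c (i + 1) * h)
    (hc' : ∀ m m' : M, (∀ i, m * c i = m' * c i) → m = m') (z : Y) : z ∈ ChainSet h c := by
  classical
  by_contra hz
  have : Nonempty ↥(ChainSet (Y := Y) h c) := ⟨⟨c 0 • z, 0, z, rfl⟩⟩
  obtain ⟨e, he⟩ := exists_surjective_nat ↥(ChainSet (Y := Y) h c)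
  have hn : ∀ n : ℕ, ∃ m₁ m₂ : M, (∀ i < n, h • m₁ • (e i).1 = h • m₂ • (e i).1) ∧
      h • m₁ • z ≠ h • m₂ • z := by
    intro n
    obtain ⟨m₁, hm₁, hm₁'⟩ := exists_retract P hclosed star hc
      ((List.range n).map fun i => (e i).1) (by
        intro y hy
        obtain ⟨i, -, rfl⟩ := List.mem_map.1 hy
        exact (e i).2)
    obtain ⟨m₂, hm₂, hm₂'⟩ := exists_retract P hclosed star hc
      ((m₁ • z) :: (List.range n).map fun i => (e i).1) (by
        intro y hy
        rcases List.mem_cons.1 hy with rfl | hy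
        · exact hm₁ z
        · obtain ⟨i, -, rfl⟩ := List.mem_map.1 hy
          exact (e i).2)
    refine ⟨m₁, m₂, fun i hi => ?_, fun heq => hz ?_⟩
    · have hmem : (e i).1 ∈ (List.range n).map fun i => (e i).1 :=
        List.mem_map.2 ⟨i, List.mem_range.2 hi, rfl⟩
      rw [hm₁' _ hmem, hm₂' _ (List.mem_cons_of_mem _ hmem)]
    · rw [← hm₂' _ List.mem_cons_self] at heq
      have := (smul_eq_iff star m₂ (m₁ • z) z).1 heq
      obtain ⟨i, x, hx⟩ := hm₁ z
      exact ⟨i, x, this.symm.trans hx⟩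
  choose m₁ m₂ hm hmz using hn
  obtain ⟨v, hv⟩ := exists_limit (G := Mˣ) (W := Y) (D := Y ⊕ Y) olig
    (fun n => Sum.elim (fun y => m₁ n • y) (fun y => m₂ n • y))
  have hg1 : Good h (fun y => v (Sum.inl y)) := by
    intro s
    obtain ⟨n, g, hg⟩ := (hv (s.map Sum.inl)).exists
    obtain ⟨g', hg'⟩ := star ((g : M) * m₁ n) s
    refine ⟨g', fun y hy => ?_⟩
    change h • v (Sum.inl y) = g' • h • y
    rw [← hg (Sum.inl y) (List.mem_map.2 ⟨y, hy, rfl⟩), ← hg' y hy, mul_smul]
    rfl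
  have hg2 : Good h (fun y => v (Sum.inr y)) := by
    intro s
    obtain ⟨n, g, hg⟩ := (hv (s.map Sum.inr)).exists
    obtain ⟨g', hg'⟩ := star ((g : M) * m₂ n) s
    refine ⟨g', fun y hy => ?_⟩
    change h • v (Sum.inr y) = g' • h • y
    rw [← hg (Sum.inr y) (List.mem_map.2 ⟨y, hy, rfl⟩), ← hg' y hy, mul_smul]
    rfl
  obtain ⟨f₁, hf₁⟩ := hg1.exists_eq P hclosed
  obtain ⟨f₂, hf₂⟩ := hg2.exists_eq P hclosed
  -- `f₁` and `f₂` agree on the chain set modulo `h`
  have hagree : ∀ y ∈ ChainSet (Y := Y) h c, h • f₁ • y = h • f₂ • y := by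
    intro y hy
    rw [hf₁, hf₂]
    obtain ⟨i, hi⟩ := he ⟨y, hy⟩
    obtain ⟨n, ⟨g, hg⟩, hin⟩ := ((hv [Sum.inl y, Sum.inr y]).and
      (eventually_UU_ge (i + 1))).exists
    rw [← hg (Sum.inl y) (by simp), ← hg (Sum.inr y) (by simp)]
    simp only [Sum.elim_inl, Sum.elim_inr]
    change h • (g : M) • m₁ n • y = h • (g : M) • m₂ n • y
    rw [smul_eq_iff star]
    have := hm n i (by omega)
    rwa [hi] at this
  have heq : f₁ = f₂ := by
    apply hc'
    intro i
    apply eq_of_forall (Y := Y) (h := h) P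
    intro y
    rw [mul_smul, mul_smul]
    exact hagree _ ⟨i, y, rfl⟩
  have h1 := hf₁ z
  rw [heq, hf₂ z] at h1
  obtain ⟨n, g, hg⟩ := (hv [Sum.inl z, Sum.inr z]).exists
  rw [← hg (Sum.inl z) (by simp), ← hg (Sum.inr z) (by simp)] at h1
  simp only [Sum.elim_inl, Sum.elim_inr] at h1
  change h • (g : M) • m₂ n • z = h • (g : M) • m₁ n • z at h1
  rw [smul_eq_iff star] at h1
  exact hmz n h1.symm

/-- Elements of the monoid act like units modulo `h` on finite sets. -/
theorem exists_unit_mod [Countable Y] [FaithfulSMul M Y] (P : Props M)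
    (hclosed : ∀ f : Y → Y, (∀ s : List Y, ∃ m : M, ∀ y ∈ s, m • y = f y) →
      ∃ m : M, ∀ y, m • y = f y)
    (star : ∀ (m : M) (s : List Y), ∃ g : Mˣ, ∀ y ∈ s, h • m • y = g • h • y)
    {c : ℕ → M} (hc : ∀ i, c i = c (i + 1) * h)
    (hall : ∀ y : Y, y ∈ ChainSet h c) (f : M) (s : List Y) :
    ∃ g : Mˣ, ∀ y ∈ s, h • g • y = h • f • y := by
  classical
  let l0 : List (Y × Y) := s.map fun y => (y, f • y)
  have hf : ∀ l : List (Y × Y), Rel h l → ∀ y : Y, ∃ y', Rel h ((y, y') :: l) := by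
    intro l hl y
    obtain ⟨y', -, hR⟩ := rel_forth star hc l (fun p _ => hall _) (fun p _ => hall _) hl y (hall y)
    exact ⟨y', hR⟩
  obtain ⟨u, v, huv⟩ := exists_backForth (fun l : List (Y × Y) => Rel h (l ++ l0))
    (by
      obtain ⟨g, hg⟩ := star f s
      refine ⟨g, fun p hp => ?_⟩
      simp only [List.nil_append, l0] at hp
      obtain ⟨y, hy, rfl⟩ := List.mem_map.1 hp
      exact hg y hy)
    (fun l hl a => hf _ hl a)
    (by
      intro l hl b
      obtain ⟨y', hR⟩ := hf _ hl.swap b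
      refine ⟨y', ?_⟩
      have := hR.swap
      simpa [Function.comp_def] using this)
    (by
      intro l l' hll hl
      refine hl.sub ?_
      intro p hp
      rcases List.mem_append.1 hp with hp | hp
      · exact List.mem_append_left _ (hll hp)
      · exact List.mem_append_right _ hp)
  have hu : Good h u := by
    intro t
    obtain ⟨g, hg⟩ := huv t []
    exact ⟨g, fun y hy => hg (y, u y) (by simp [hy])⟩
  have hv : Good h v := by
    intro t
    obtain ⟨g, hg⟩ := huv [] t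
    refine ⟨g⁻¹, fun y hy => ?_⟩
    have := hg (v y, y) (by simp [hy])
    simp only at this
    rw [this, inv_smul_smul]
  obtain ⟨fu, hfu⟩ := hu.exists_eq P hclosed
  obtain ⟨fv, hfv⟩ := hv.exists_eq P hclosed
  have h1 : fu * fv = 1 := by
    apply eq_of_forall (Y := Y) (h := h) P
    intro y
    rw [mul_smul, one_smul]
    have h2 : h • fu • fv • y = h • fu • v y := (smul_eq_iff star fu _ _).2 (hfv y)
    rw [h2, hfu]
    obtain ⟨g, hg⟩ := huv [v y] [y]
    have h3 := hg (v y, u (v y)) (by simp)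
    have h4 := hg (v y, y) (by simp)
    simp only at h3 h4
    rw [h3, h4]
  have h2 : fv * fu = 1 := by
    apply eq_of_forall (Y := Y) (h := h) P
    intro y
    rw [mul_smul, one_smul]
    have h2 : h • fv • fu • y = h • fv • u y := (smul_eq_iff star fv _ _).2 (hfu y)
    rw [h2, hfv]
    obtain ⟨g, hg⟩ := huv [y] [u y]
    have h3 := hg (y, u y) (by simp)
    have h4 := hg (v (u y), u y) (by simp)
    simp only at h3 h4
    exact MulAction.injective g (h4.symm.trans h3)
  refine ⟨⟨fu, fv, h1, h2⟩, fun y hy => ?_⟩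
  change h • fu • y = h • f • y
  rw [hfu]
  obtain ⟨g, hg⟩ := huv [y] []
  have h3 := hg (y, u y) (by simp)
  have h4 := hg (y, f • y) (List.mem_append_right _ (List.mem_map.2 ⟨y, hy, rfl⟩))
  simp only at h3 h4
  rw [h3, h4]

/-- Finite supports: the topology induced by `Y` is the one induced by `Y` modulo `h`. -/
theorem exists_support [Countable Y] [FaithfulSMul M Y] (P : Props M)
    (olig : ∀ k : ℕ, Finite (MulAction.orbitRel.Quotient Mˣ (Fin k → Y)))
    (hclosed : ∀ f : Y → Y, (∀ s : List Y, ∃ m : M, ∀ y ∈ s, m • y = f y) →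
      ∃ m : M, ∀ y, m • y = f y)
    (star : ∀ (m : M) (s : List Y), ∃ g : Mˣ, ∀ y ∈ s, h • m • y = g • h • y) (a : Y) :
    ∃ s : List Y, ∀ g : Mˣ, (∀ y ∈ s, h • g • y = h • y) → g • a = a := by
  classical
  by_contra hcon
  have : Nonempty Y := ⟨a⟩
  obtain ⟨e, he⟩ := exists_surjective_nat Y
  have hn : ∀ n : ℕ, ∃ g : Mˣ, (∀ i < n, h • g • e i = h • e i) ∧ g • a ≠ a := by
    intro n
    by_contra hcon2
    refine hcon ⟨(List.range n).map e, fun g hg => ?_⟩
    by_contra hga
    exact hcon2 ⟨g, fun i hi => hg _ (List.mem_map.2 ⟨i, List.mem_range.2 hi, rfl⟩), hga⟩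
  choose g hg hga using hn
  obtain ⟨v, hv⟩ := exists_limit (G := Mˣ) (W := Y) (D := Y ⊕ Y) olig
    (fun n => Sum.elim (fun y => y) (fun y => g n • y))
  obtain ⟨f₁, hf₁⟩ := hclosed (fun y => v (Sum.inl y)) (by
    intro s
    obtain ⟨n, k, hk⟩ := (hv (s.map Sum.inl)).exists
    exact ⟨k, fun y hy => hk (Sum.inl y) (List.mem_map.2 ⟨y, hy, rfl⟩)⟩)
  obtain ⟨f₂, hf₂⟩ := hclosed (fun y => v (Sum.inr y)) (by
    intro s
    obtain ⟨n, k, hk⟩ := (hv (s.map Sum.inr)).exists
    refine ⟨(k : M) * (g n : M), fun y hy => ?_⟩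
    rw [mul_smul]
    exact hk (Sum.inr y) (List.mem_map.2 ⟨y, hy, rfl⟩))
  have heq : f₁ = f₂ := by
    apply eq_of_forall (Y := Y) (h := h) P
    intro y
    rw [hf₁, hf₂]
    obtain ⟨i, rfl⟩ := he y
    obtain ⟨n, ⟨k, hk⟩, hin⟩ := ((hv [Sum.inl (e i), Sum.inr (e i)]).and
      (eventually_UU_ge (i + 1))).exists
    rw [← hk (Sum.inl (e i)) (by simp), ← hk (Sum.inr (e i)) (by simp)]
    simp only [Sum.elim_inl, Sum.elim_inr]
    change h • (k : M) • e i = h • (k : M) • g n • e i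
    rw [smul_eq_iff star, hg n i (by omega)]
  obtain ⟨n, k, hk⟩ := (hv [Sum.inl a, Sum.inr a]).exists
  have h1 := hk (Sum.inl a) (by simp)
  have h2 := hk (Sum.inr a) (by simp)
  rw [← hf₁, heq] at h1
  rw [← hf₂] at h2
  simp only [Sum.elim_inl, Sum.elim_inr] at h1 h2
  exact hga n (MulAction.injective k (h2.trans h1.symm))

/-- Main theorem of the `Y`-side: the units are dense. -/
theorem units_dense [Countable Y] [FaithfulSMul M Y] (P : Props M)
    (olig : ∀ k : ℕ, Finite (MulAction.orbitRel.Quotient Mˣ (Fin k → Y)))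
    (hclosed : ∀ f : Y → Y, (∀ s : List Y, ∃ m : M, ∀ y ∈ s, m • y = f y) →
      ∃ m : M, ∀ y, m • y = f y) (f : M) (s : List Y) :
    ∃ g : Mˣ, ∀ y ∈ s, g • y = f • y := by
  classical
  obtain ⟨h, star⟩ := exists_star (Y := Y) P
  obtain ⟨c, hc, hc'⟩ := P.chain h
  have hall : ∀ y : Y, y ∈ ChainSet h c := mem_chainSet P olig hclosed star hc hc'
  have hunit := exists_unit_mod P hclosed star hc hall f
  choose supp hsupp using exists_support P olig hclosed star
  choose g hg using fun a : Y => hunit (a :: supp a)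
  -- a unit agreeing with `f` modulo `h` on all supports
  have key : ∀ t : List Y, ∃ k : Mˣ, ∀ a ∈ t, k • a = g a • a ∧ h • k • a = h • f • a := by
    intro t
    obtain ⟨k, hk⟩ := hunit (t ++ t.flatMap supp)
    refine ⟨k, fun a ha => ⟨?_, hk a (List.mem_append_left _ ha)⟩⟩
    have : ((g a)⁻¹ * k) • a = a := by
      apply hsupp a
      intro y hy
      have h1 := hk y (List.mem_append_right _ (List.mem_flatMap.2 ⟨a, ha, hy⟩))
      have h2 := hg a y (List.mem_cons_of_mem _ hy)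
      have h3 : h • k • y = h • g a • y := h1.trans h2.symm
      rw [mul_smul]
      have h4 := (smul_eq_iff star ((g a)⁻¹ : Mˣ) (k • y) (g a • y)).2 h3
      change h • (g a)⁻¹ • k • y = h • (g a)⁻¹ • g a • y at h4
      rw [inv_smul_smul] at h4
      exact h4
    rw [mul_smul, inv_smul_eq_iff] at this
    exact this
  obtain ⟨m, hm⟩ := hclosed (fun a => g a • a) (by
    intro t
    obtain ⟨k, hk⟩ := key t
    exact ⟨k, fun y hy => (hk y hy).1⟩)
  have heq : m = f := by
    apply eq_of_forall (Y := Y) (h := h) P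
    intro y
    obtain ⟨k, hk⟩ := key [y]
    have := hk y (by simp)
    rw [hm y, ← this.1]
    exact this.2
  obtain ⟨k, hk⟩ := key s
  exact ⟨k, fun y hy => by rw [(hk y hy).1, ← hm y, heq]⟩

end

end Helper67.Recon
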